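import Pool.Agent.H756.LF
import Pool.Agent.H756.Final

/-!
# Spaces whose identity factors locally through separable dual spaces
-/

namespace Pool.Agent.Results.MP_628922_an.LocallyDual

open TopologicalSpace Pool.Agent.H756

universe u v

/-- The identity of `X` on the finite set `F` factors locally, up to `δ` and with constant `C`,
through the dual of `B`: there is an operator `A` from `X` to the dual of `B` with norm at most
`C`, such that every finite dimensional subspace `G` of the dual of `B` has a linear map `τ` into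
`X` with norm at most `C`, for which `τ (A x)` is within `δ` of `x`, for all `x` in `F` with `A x`
in `G`. -/
def FactorsLocally (X : Type u) [NormedAddCommGroup X] [NormedSpace ℝ X]
    (B : Type v) [NormedAddCommGroup B] [NormedSpace ℝ B] (C : ℝ) (F : Finset X) (δ : ℝ) : Prop :=
  ∃ A : X →L[ℝ] StrongDual ℝ B, ‖A‖ ≤ C ∧
    ∀ G : Submodule ℝ (StrongDual ℝ B), FiniteDimensional ℝ G →
      ∃ τ : G →ₗ[ℝ] X, (∀ g : G, ‖τ g‖ ≤ C * ‖(g : StrongDual ℝ B)‖) ∧
        ∀ x ∈ F, ∀ h : A x ∈ G, ‖τ ⟨A x, h⟩ - x‖ ≤ δ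

/-- Question 1 with `g ξ = ω · ξ · ω`, for the separable spaces `X` whose identity is locally
approximated, with a uniform constant, by maps through separable dual spaces. -/
theorem result (X : Type u) [NormedAddCommGroup X] [NormedSpace ℝ X] [CompleteSpace X]
    [SeparableSpace X]
    (happ : ∃ C : ℝ, ∀ (F : Finset X) (δ : ℝ), 0 < δ →
      ∃ (B : Type v) (_ : NormedAddCommGroup B) (_ : NormedSpace ℝ B)
        (_ : SeparableSpace (StrongDual ℝ B)), FactorsLocally X B C F δ)
    (ξ : Ordinal.{0}) (hξ : ξ < Ordinal.omega 1) (hX : BourgainIndexLE X ξ) :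
    Ordinal.omega0 * ξ * Ordinal.omega0 < Ordinal.omega 1 ∧
      ∃ (Y : Type) (_ : NormedAddCommGroup Y) (_ : NormedSpace ℝ Y) (_ : CompleteSpace Y),
        Nonempty (SchauderBasis ℝ Y) ∧ (∃ T : X →L[ℝ] Y, Topology.IsClosedEmbedding T) ∧
          BourgainIndexLE Y (Ordinal.omega0 * ξ * Ordinal.omega0) := by
  obtain ⟨C, hC⟩ := happ
  exact ⟨bound_lt_omega_one hξ, (embeds_of_lf hX hC).exists_closed⟩

end Pool.Agent.Results.MP_628922_an.LocallyDual
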