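import Pool.Agent.H756.Mixed
import Pool.Agent.H756.Final

/-!
# Spaces whose dual is a separable set plus the range of an adjoint with Asplund domain

The dual of `V` is an Asplund space when every separable Banach space that embeds isometrically in
the dual has a separable dual. The hypothesis on `X` asks that each functional on `X` is the sum of
a member of a fixed norm-separable set `S` and of a functional that factors through a fixed operator
`A` from `X` to such a space `V`. It holds when the dual of `X` is separable (`V = 0`), when the
dual of `X` is an Asplund space (`A` the identity, `S = {0}`), and when `X` has a closed subspace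
`Y` with a separable dual for which the dual of `X / Y` is an Asplund space (`A` the quotient map,
`S` a separable set of extensions).
-/

namespace Pool.Agent.Results.MP_628922_an.MixedDual

open TopologicalSpace Pool.Agent.H756

universe u w

/-- Question 1 with `g ξ = ω · ξ · ω`, for the separable spaces `X` whose dual is the sum of a
separable set and of the range of the adjoint of an operator to a space `V` with an Asplund
dual. -/
theorem result (X : Type u) [NormedAddCommGroup X] [NormedSpace ℝ X] [CompleteSpace X]
    [SeparableSpace X] (V : Type w) [NormedAddCommGroup V] [NormedSpace ℝ V]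
    (hAsp : ∀ (W : Type w) [NormedAddCommGroup W] [NormedSpace ℝ W] [CompleteSpace W]
      [SeparableSpace W], (W →ₗᵢ[ℝ] StrongDual ℝ V) → SeparableSpace (StrongDual ℝ W))
    (A : X →L[ℝ] V) (S : Set (StrongDual ℝ X)) (hS : IsSeparable S)
    (hdec : ∀ f : StrongDual ℝ X, ∃ s ∈ S, ∃ g : StrongDual ℝ V, f = s + g.comp A)
    (ξ : Ordinal.{0}) (hξ : ξ < Ordinal.omega 1) (hX : BourgainIndexLE X ξ) :
    Ordinal.omega0 * ξ * Ordinal.omega0 < Ordinal.omega 1 ∧
      ∃ (Y : Type) (_ : NormedAddCommGroup Y) (_ : NormedSpace ℝ Y) (_ : CompleteSpace Y),
        Nonempty (SchauderBasis ℝ Y) ∧ (∃ T : X →L[ℝ] Y, Topology.IsClosedEmbedding T) ∧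
          BourgainIndexLE Y (Ordinal.omega0 * ξ * Ordinal.omega0) :=
  ⟨bound_lt_omega_one hξ, (embeds_of_mixed hX hAsp A S hS hdec).exists_closed⟩

end Pool.Agent.Results.MP_628922_an.MixedDual
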