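import Pool.Agent.H756.ExtMain
import Pool.Agent.H756.Final

/-!
# Extensions by reflexive spaces

`0 → Y → X → V → 0` is a short exact sequence of Banach spaces with `V` reflexive, so that `Y` is
isomorphic to a closed subspace of `X` and `V` to the quotient. The hypothesis on `Y` holds when
`Y` has the bounded approximation property, with `E = Y`; when `V = 0` it is a hypothesis on
`X` alone.
-/

namespace Pool.Agent.Results.MP_628922_an.ReflexiveQuotient

open Filter Topology TopologicalSpace Pool.Agent.H756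

universe u v w

/-- There are an isomorphic embedding `i` of `Y` in `E` and finite rank operators `R n` from `Y` to
`E` that converge pointwise to `i`, such that for each functional `μ` on `E` that vanishes on the
range of `i`, the functionals `μ ∘ R n` on `Y` converge weakly to zero. -/
def WeaklyApproximable (Y : Type v) [NormedAddCommGroup Y] [NormedSpace ℝ Y]
    (E : Type w) [NormedAddCommGroup E] [NormedSpace ℝ E] : Prop :=
  ∃ (i : Y →L[ℝ] E) (R : ℕ → Y →L[ℝ] E), (∃ c : ℝ, 0 < c ∧ ∀ y, c * ‖y‖ ≤ ‖i y‖) ∧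
    (∀ n, FiniteDimensional ℝ (LinearMap.range (R n).toLinearMap)) ∧
    (∀ y, Tendsto (fun n => R n y) atTop (𝓝 (i y))) ∧
    ∀ μ : StrongDual ℝ E, (∀ y, μ (i y) = 0) → ∀ Φ : StrongDual ℝ (StrongDual ℝ Y),
      Tendsto (fun n => Φ (μ.comp (R n))) atTop (𝓝 0)

/-- Question 1 with `g ξ = ω · ξ · ω`, for the separable spaces `X` that are extensions of a
reflexive space `V` by a weakly approximable space `Y`. -/
theorem result (X : Type u) [NormedAddCommGroup X] [NormedSpace ℝ X] [CompleteSpace X]
    [SeparableSpace X]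
    (Y : Type v) [NormedAddCommGroup Y] [NormedSpace ℝ Y] [CompleteSpace Y]
    (V : Type v) [NormedAddCommGroup V] [NormedSpace ℝ V] [CompleteSpace V]
    (j : Y →L[ℝ] X) (q : X →L[ℝ] V) (hj : Function.Injective j) (hjq : Function.Exact j q)
    (hq : Function.Surjective q)
    (hV : Function.Surjective (NormedSpace.inclusionInDoubleDual ℝ V))
    (hY : ∃ (E : Type w) (_ : NormedAddCommGroup E) (_ : NormedSpace ℝ E),
      WeaklyApproximable Y E)
    (ξ : Ordinal.{0}) (hξ : ξ < Ordinal.omega 1) (hX : BourgainIndexLE X ξ) :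
    Ordinal.omega0 * ξ * Ordinal.omega0 < Ordinal.omega 1 ∧
      ∃ (Z : Type) (_ : NormedAddCommGroup Z) (_ : NormedSpace ℝ Z) (_ : CompleteSpace Z),
        Nonempty (SchauderBasis ℝ Z) ∧ (∃ T : X →L[ℝ] Z, Topology.IsClosedEmbedding T) ∧
          BourgainIndexLE Z (Ordinal.omega0 * ξ * Ordinal.omega0) := by
  obtain ⟨E, _, _, i, R, ⟨c, hc, hi⟩, hfin, hR, hw⟩ := hY
  exact ⟨bound_lt_omega_one hξ, (embeds_of_extension hX hV j hj q hq (fun x => hjq x) i hc hi R
    hfin hR hw).exists_closed⟩

end Pool.Agent.Results.MP_628922_an.ReflexiveQuotient
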