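import Pool.Agent.H756.Final

/-!
# Spaces with separable dual

Bourgain's `ℓ₁`-index of a Banach space with a basis containing a given space with separable dual
is bounded by a function of the `ℓ₁`-index of the given space alone. The same holds for every
separable space whose identity is a pointwise limit of a bounded family of operators each of which
is compact or has an adjoint of separable range.
-/

namespace Pool.Agent.Results.MP_628922_an.SeparableDual

open TopologicalSpace Pool.Agent.H756

/-- Question 1 with `g ξ = ω · ξ · ω`, for the spaces `X` with separable dual (take `U` to be the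
identity), those with the bounded compact approximation property (take `U` compact), and more. -/
theorem result (X : Type*) [NormedAddCommGroup X] [NormedSpace ℝ X] [CompleteSpace X]
    [SeparableSpace X]
    (happ : ∃ C : ℝ, ∀ (F : Finset X) (δ : ℝ), 0 < δ → ∃ U : X →L[ℝ] X, ‖U‖ ≤ C ∧
      (IsCompactOperator U ∨ IsSeparable (Set.range fun f : StrongDual ℝ X => f.comp U)) ∧
      ∀ x ∈ F, ‖U x - x‖ ≤ δ)
    (ξ : Ordinal.{0}) (hξ : ξ < Ordinal.omega 1) (hX : BourgainIndexLE X ξ) :
    Ordinal.omega0 * ξ * Ordinal.omega0 < Ordinal.omega 1 ∧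
      ∃ (Y : Type) (_ : NormedAddCommGroup Y) (_ : NormedSpace ℝ Y) (_ : CompleteSpace Y),
        Nonempty (SchauderBasis ℝ Y) ∧ (∃ T : X →L[ℝ] Y, Topology.IsClosedEmbedding T) ∧
          BourgainIndexLE Y (Ordinal.omega0 * ξ * Ordinal.omega0) := by
  obtain ⟨C, hC⟩ := happ
  refine ⟨bound_lt_omega_one hξ, (embeds_of_asplund_approx hX (C := C) ?_).exists_closed⟩
  intro F δ hδ
  obtain ⟨U, h1, h2, h3⟩ := hC F δ hδ
  refine ⟨U, h1, ?_, h3⟩
  rcases h2 with h2 | h2
  · exact isSeparable_adjoint_of_compact U h2
  · exact h2

end Pool.Agent.Results.MP_628922_an.SeparableDual
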